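import Pool.Agent.Y869.BI.Bridge

/-!
# Where the examples for Q1 of MP_9708fd_lc can be: the least size of a bad set is inaccessible and
# not weakly compact

The starting result `NontrivialAutomorphism` shows that it is consistent that there is a nontrivial
automorphism `π` of `P(λ)/I_{κ⁺}` which is trivial on all sets of size `κ⁺`, and that there is then
an inaccessible cardinal in `(κ, λ]`. Here we determine where such a `π` fails: the least
cardinality `θ` of a set on which `π` is not trivial is strongly inaccessible and not weakly
compact. In particular there is no example for Q1 if all strongly inaccessible cardinals of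
`(κ⁺, λ]` are weakly compact.

The proof. Let `π` be trivial on all sets of size less than `θ = |X|`, but not on `X`.

* `θ ≤ 2 ^ μ` with `κ⁺ ≤ μ < θ` is impossible: `π` induces an automorphism modulo the sets of
  size `< μ`, and the argument for `λ ≤ 2 ^ μ` (starting files, `W869.AV`) gives a function on `X`
  which is correct up to sets of size `< μ`. It is wrong everywhere on fewer than `μ` disjoint sets
  of size `κ⁺`; remove these.
* `θ` singular is impossible: glue functions for `cof θ` many pieces and correct in the same way.
* So `θ` is inaccessible. Let `e_a` be functions for the initial segments `X_a`, `a < θ`. The graphs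
  of the `e_a` form a `θ`-list; a branch of this list is, on each `X_a`, a function which differs
  from `e_a` at at most `κ` points. So there is no branch.
-/

set_option autoImplicit false

universe u

namespace Pool.Agent.Results.MP_9708fd_lc.LeastBadSet

open Cardinal Pool.Agent.W869.AU Pool.Agent.Y869.BI

/-- Let `κ` be an infinite cardinal, `Λ` a set and `π` a nontrivial automorphism of `P(Λ)/I_{κ⁺}`
which is trivial on all subsets of `Λ` of cardinality `κ⁺`. Then the least cardinality `θ` of a
subset of `Λ` on which `π` is not trivial is a strongly inaccessible cardinal with `κ⁺ < θ ≤ |Λ|`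
which is not weakly compact (there is a `θ`-list without a cofinal branch). -/
theorem result (κ : Cardinal.{u}) (hμ : ℵ₀ ≤ Order.succ κ) (Λ : Type u)
    (π : Quo (Order.succ κ) hμ Λ ≃o Quo (Order.succ κ) hμ Λ)
    (hπ : ∀ X : Set Λ, #X = Order.succ κ → IsTrivialOn π X) (hnt : ¬ IsTrivial π) :
    ∃ θ : Cardinal.{u}, Order.succ κ < θ ∧ θ ≤ #Λ ∧ θ.IsInaccessible ∧ ¬ HasBranches θ ∧
      (∀ X : Set Λ, #X < θ → IsTrivialOn π X) ∧ ∃ X : Set Λ, #X = θ ∧ ¬ IsTrivialOn π X :=
  least_bad π hπ hnt

end Pool.Agent.Results.MP_9708fd_lc.LeastBadSet
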